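import Pool.Agent.H.MP_b5bf4a_co.B

namespace Pool.Agent.Results.MP_b5bf4a_co.Sqrt

/-- every geometric graph on `n` points with at least `e` edges has a line meeting `k` edges -/
def Forces (n k e : ℕ) : Prop :=
  ∀ (P : ℕ → ℝ × ℝ) (E : Finset (ℕ × ℕ)),
    (∀ i < n, ∀ j < n, P i = P j → i = j) →
    (∀ i < n, ∀ j < n, ∀ m < n, i ≠ j → i ≠ m → j ≠ m → ¬ Collinear ℝ {P i, P j, P m}) →
    (∀ x ∈ E, x.1 < x.2 ∧ x.2 < n) → e ≤ E.card →
    ∃ α β γ : ℝ, (α ≠ 0 ∨ β ≠ 0) ∧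
      k ≤ {x ∈ (E : Set (ℕ × ℕ)) |
        ∃ z ∈ openSegment ℝ (P x.1) (P x.2), α * z.1 + β * z.2 = γ}.ncard

/-- the least forcing number of edges -/
noncomputable def f (n k : ℕ) : ℕ := sInf {e | Forces n k e}

open Pool.Agent.H.MP_b5bf4a_co

open Classical in
lemma nc (P : ℕ → ℝ × ℝ) (E : Finset (ℕ × ℕ)) (α β γ : ℝ) :
    {x ∈ (E : Set (ℕ × ℕ)) | ∃ z ∈ openSegment ℝ (P x.1) (P x.2), α * z.1 + β * z.2 = γ}.ncard =
      (E.filter (Meets P α β γ)).card := by
  rw [← Set.ncard_coe_finset, Finset.coe_filter]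
  rfl

lemma forces {n : ℕ} (hn : 2 ≤ n) (K t e : ℕ)
    (h : 2 * (t + 1) * K + (n + 1) * (K + t * (t + 1)) < 2 * (t + 1) * e) : Forces n (K + 1) e := by
  intro P E h1 h2 h3 h4
  by_contra hc
  push Not at hc
  have := upper hn ⟨h1, h2⟩ E h3 K (fun α β γ h0 => by
    have := hc α β γ h0
    rw [nc] at this
    omega) t
  have := Nat.mul_le_mul_left (2 * (t + 1)) h4
  omega

lemma f_mem {n : ℕ} (hn : 2 ≤ n) (K : ℕ) : Forces n (K + 1) (f n (K + 1)) :=
  Nat.sInf_mem (s := {e | Forces n (K + 1) e})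
    ⟨K + (n + 1) * K + 1, forces hn K 0 _ (by nlinarith)⟩

lemma f_gt {n : ℕ} (hn : 2 ≤ n) (K l j : ℕ) (hj : j ≤ l) (hK : l * (l + 1) + 2 * j ≤ K) :
    (n - l) * l + (n / (l + 1) - 1) * j < f n (K + 1) := by
  by_contra h
  obtain ⟨α, β, γ, h0, h1⟩ := f_mem hn K Par (Ed n l j) (par_GP n).1 (par_GP n).2 (Ed_ok n l j)
    ((not_lt.1 h).trans (Ed_card n l j hj))
  rw [nc] at h1
  have := Ed_lines n l j α β γ h0
  omega

lemma f_le {n : ℕ} (hn : 2 ≤ n) (K t : ℕ) :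
    (f n (K + 1) : ℝ) ≤ K + (n + 1) * (K + t * (t + 1)) / (2 * (t + 1)) + 1 := by
  have h := Nat.sInf_le (s := {e | Forces n (K + 1) e})
    (forces hn K t (K + (n + 1) * (K + t * (t + 1)) / (2 * (t + 1)) + 1) (by
      have := Nat.lt_mul_div_succ ((n + 1) * (K + t * (t + 1))) (show 0 < 2 * (t + 1) by omega)
      nlinarith))
  have h2 : (f n (K + 1) : ℝ) ≤
      ((K + (n + 1) * (K + t * (t + 1)) / (2 * (t + 1)) + 1 : ℕ) : ℝ) := by exact_mod_cast h
  have h3 := Nat.cast_div_le (α := ℝ) (m := (n + 1) * (K + t * (t + 1))) (n := 2 * (t + 1))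
  push_cast at h2 h3
  linarith

theorem result :
    (∀ n k : ℕ, 2 ≤ n → 1 ≤ k → IsLeast {e | Forces n k e} (f n k) ∧
      |(f n k : ℝ) - n * √k| ≤ 2 * n + 2 * k) ∧
    ∀ n l j : ℕ, 2 ≤ n → j ≤ l →
      |(f n (l * (l + 1) + 2 * j + 1) : ℝ) - n * (l + j / (l + 1))| ≤ (l + 2) ^ 2 := by
  constructor
  · intro n k hn hk
    obtain ⟨K, rfl⟩ : ∃ K, k = K + 1 := ⟨k - 1, by omega⟩
    refine ⟨⟨f_mem hn K, fun e he => Nat.sInf_le he⟩, ?_⟩
    have hex : ∃ l : ℕ, K < (l + 1) * (l + 2) := ⟨K, by nlinarith⟩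
    set l := Nat.find hex with hl
    have h1 : K < (l + 1) * (l + 2) := Nat.find_spec hex
    have h2 : l * (l + 1) ≤ K := by
      rcases Nat.eq_zero_or_pos l with h | h
      · rw [h]; omega
      · have := Nat.find_min hex (show l - 1 < l by omega)
        rw [show l - 1 + 1 = l by omega, show l - 1 + 2 = l + 1 by omega] at this
        omega
    have h1' : (K : ℝ) + 1 ≤ (l + 1) * (l + 2) := by exact_mod_cast h1
    have h2' : (l : ℝ) * (l + 1) ≤ K := by exact_mod_cast h2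
    have hl0 : (0 : ℝ) ≤ l := by positivity
    have hn' : (2 : ℝ) ≤ n := by exact_mod_cast hn
    have s1 : (l : ℝ) ≤ √((K + 1 : ℕ) : ℝ) := by
      apply Real.le_sqrt_of_sq_le; push_cast; nlinarith
    have s2 : √((K + 1 : ℕ) : ℝ) ≤ l + 2 := by
      apply Real.sqrt_le_iff.2 ⟨by positivity, by push_cast; nlinarith⟩
    have u := f_le hn K (l + 1)
    have u2 : ((n : ℝ) + 1) * (K + ((l + 1 : ℕ) : ℝ) * (((l + 1 : ℕ) : ℝ) + 1)) /
        (2 * (((l + 1 : ℕ) : ℝ) + 1)) ≤ (n + 1) * (l + 1) := by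
      push_cast
      rw [div_le_iff₀ (by positivity)]
      have : ((n : ℝ) + 1) * (K + (l + 1) * (l + 1 + 1)) ≤ (n + 1) * (2 * ((l + 1) * (l + 2))) := by
        gcongr; nlinarith
      nlinarith
    have lo := f_gt hn K l 0 (by omega) (by omega)
    have lo2 : n * l ≤ f n (K + 1) + l * l := by
      rcases le_total n l with c | c
      · nlinarith
      · obtain ⟨m, rfl⟩ := Nat.exists_eq_add_of_le c
        rw [Nat.add_sub_cancel_left] at lo
        nlinarith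
    have lo3 : (n : ℝ) * l ≤ f n (K + 1) + l * l := by exact_mod_cast lo2
    have hlK : (l : ℝ) ≤ K := by nlinarith
    rw [abs_le]
    push_cast at s1 s2 ⊢
    constructor
    · nlinarith [mul_le_mul_of_nonneg_left s2 (show (0 : ℝ) ≤ n by positivity)]
    · nlinarith [mul_le_mul_of_nonneg_left s1 (show (0 : ℝ) ≤ n by positivity)]
  · intro n l j hn hj
    have hl0 : (0 : ℝ) ≤ l := by positivity
    have hj0 : (0 : ℝ) ≤ j := by positivity
    have hj' : (j : ℝ) ≤ l := by exact_mod_cast hj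
    have u := f_le hn (l * (l + 1) + 2 * j) l
    have e : ((n : ℝ) + 1) * (((l * (l + 1) + 2 * j : ℕ) : ℝ) + l * (l + 1)) / (2 * (l + 1)) =
        (n + 1) * (l + j / (l + 1)) := by
      push_cast; field_simp; ring
    rw [e] at u
    have hq : (j : ℝ) / (l + 1) ≤ 1 := by rw [div_le_one (by positivity)]; linarith
    have lo := f_gt hn (l * (l + 1) + 2 * j) l j hj le_rfl
    have a1 : n * l ≤ (n - l) * l + l * l := by
      rw [← add_mul]; exact Nat.mul_le_mul_right _ (by omega)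
    have a2 : (n / (l + 1)) * j ≤ (n / (l + 1) - 1) * j + j := by
      rw [← add_one_mul]; exact Nat.mul_le_mul_right _ (by omega)
    have a3 : n * l + (n / (l + 1)) * j ≤ f n (l * (l + 1) + 2 * j + 1) + l * l + j := by omega
    have a4 : (n : ℝ) * l + ((n / (l + 1) : ℕ) : ℝ) * j ≤
        f n (l * (l + 1) + 2 * j + 1) + l * l + j := by exact_mod_cast a3
    have a5 : (n : ℝ) / (l + 1) ≤ ((n / (l + 1) : ℕ) : ℝ) + 1 := by
      rw [div_le_iff₀ (by positivity)]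
      have := Nat.lt_mul_div_succ n (show 0 < l + 1 by omega)
      have : (n : ℝ) < (l + 1) * (((n / (l + 1) : ℕ) : ℝ) + 1) := by exact_mod_cast this
      linarith
    have a6 := mul_le_mul_of_nonneg_right a5 hj0
    have a7 : (n : ℝ) * (l + j / (l + 1)) = n * l + n / (l + 1) * j := by ring
    rw [abs_le]
    push_cast at u
    constructor
    · rw [a7]; nlinarith
    · nlinarith

end Pool.Agent.Results.MP_b5bf4a_co.Sqrt
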